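import Pool.Agent.BEC.Stmts

set_option autoImplicit false

namespace Pool.Agent.BEC.H27

open Set Filter Topology MeasureTheory
open scoped Convolution
open Pool.Agent.BEC Pool.Agent.BE01F

theorem mol_uc {d : ℕ} {B : Type*} [NormedAddCommGroup B] (f : E d → B) (hf : Continuous f)
    (hc : HasCompactSupport f) : UniformContinuous f :=
  hc.uniformContinuous_of_continuous hf

theorem mol_L {d : ℕ} (g : E d → ℝ) (F' : E d → (E d →L[ℝ] ℝ)) (x : E d) :
    (g ⋆[(ContinuousLinearMap.lsmul ℝ ℝ).precompR (E d), volume] F') x =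
      (g ⋆[ContinuousLinearMap.lsmul ℝ ℝ, volume] F') x := by
  unfold MeasureTheory.convolution
  refine integral_congr_ae (Filter.Eventually.of_forall fun t => ?_)
  ext y
  simp

theorem mol : MolStmt := by
  intro d F ε hF hFc hε
  have u1 := mol_uc F hF.continuous hFc
  have hdF : Continuous (fderiv ℝ F) := hF.continuous_fderiv one_ne_zero
  have hdFc : HasCompactSupport (fderiv ℝ F) := hFc.fderiv ℝ
  have u2 := mol_uc (fderiv ℝ F) hdF hdFc
  obtain ⟨δ1, hδ1, h1⟩ := Metric.uniformContinuous_iff.mp u1 ε hε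
  obtain ⟨δ2, hδ2, h2⟩ := Metric.uniformContinuous_iff.mp u2 ε hε
  have hδ : 0 < min δ1 δ2 := lt_min hδ1 hδ2
  set φ : ContDiffBump (0 : E d) := ⟨min δ1 δ2 / 2, min δ1 δ2, half_pos hδ, half_lt_self hδ⟩
    with hφ
  have hloc : LocallyIntegrable (φ.normed volume) (volume : Measure (E d)) :=
    φ.continuous_normed.locallyIntegrable
  refine ⟨(φ.normed volume ⋆[ContinuousLinearMap.lsmul ℝ ℝ, volume] F : E d → ℝ), ?_, ?_, ?_, ?_⟩
  · exact φ.hasCompactSupport_normed.contDiff_convolution_left _ φ.contDiff_normed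
      hF.continuous.locallyIntegrable
  · exact φ.hasCompactSupport_normed.convolution _ hFc
  · intro x
    have h := φ.dist_normed_convolution_le (g := F) (x₀ := x) (ε := ε) (μ := volume)
      hF.continuous.aestronglyMeasurable (fun y hy => by
        have hy' : dist y x < δ1 := lt_of_lt_of_le (Metric.mem_ball.mp hy) (min_le_left _ _)
        exact (h1 hy').le)
    rw [dist_comm, Real.dist_eq] at h
    exact h
  · intro x
    have h := φ.dist_normed_convolution_le (g := fderiv ℝ F) (x₀ := x) (ε := ε) (μ := volume)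
      hdF.aestronglyMeasurable (fun y hy => by
        have hy' : dist y x < δ2 := lt_of_lt_of_le (Metric.mem_ball.mp hy) (min_le_right _ _)
        exact (h2 hy').le)
    have hd := hFc.hasFDerivAt_convolution_right (ContinuousLinearMap.lsmul ℝ ℝ) hloc hF x
    have hg : gradient F x - gradient (φ.normed volume ⋆[ContinuousLinearMap.lsmul ℝ ℝ, volume] F)
        x = (InnerProductSpace.toDual ℝ (E d)).symm (fderiv ℝ F x -
          (φ.normed volume ⋆[ContinuousLinearMap.lsmul ℝ ℝ, volume] fderiv ℝ F) x) := by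
      unfold gradient
      rw [hd.fderiv, mol_L, map_sub]
    rw [hg, LinearIsometryEquiv.norm_map, ← dist_eq_norm, dist_comm]
    exact h

end Pool.Agent.BEC.H27
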